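import Pool.Agent.MP_c69980_ag.H43.Spec10

/-!
Points of small transcendence degree form a set of small Hausdorff dimension.
-/

set_option autoImplicit false

namespace Pool.Agent.MP_c69980_ag.H43

open Filter Topology Polynomial

lemma thin_loc {X Y Z : Type} [NormedAddCommGroup X] [NormedSpace ℂ X] [FiniteDimensional ℂ X]
    [NormedAddCommGroup Y] [NormedSpace ℂ Y] [NormedAddCommGroup Z] [NormedSpace ℂ Z]
    {S : Set X} {ψ : X → Y} {χ : X → Z} (h0 : ∀ x ∈ S, χ x = 0)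
    (h : ∀ x ∈ S, ∃ (L : X →L[ℂ] Y) (L' : X →L[ℂ] Z), HasStrictFDerivAt ψ L x ∧
      HasStrictFDerivAt χ L' x ∧ ∀ v, L v = 0 → L' v = 0 → v = 0) :
    dimH S ≤ dimH (Set.univ : Set Y) := by
  by_contra hc
  have := FiniteDimensional.proper ℂ X
  obtain ⟨x, hx, H⟩ := exists_mem_nhdsWithin_lt_dimH_of_lt_dimH (not_le.1 hc)
  obtain ⟨L, L', h1, h2, h3⟩ := h x hx
  obtain ⟨K, K0, hK⟩ := (L.prod L' : X →ₗ[ℂ] Y × Z).exists_antilipschitzWith
    (LinearMap.ker_eq_bot'.2 fun v hv => h3 v (congrArg Prod.fst hv) (congrArg Prod.snd hv))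
  obtain ⟨W, hW, hA⟩ :=
    (h1.prodMk h2).approximates_deriv_on_nhds (c := (2 * K)⁻¹) (.inr (by positivity))
  refine (H (S ∩ W) (inter_mem_nhdsWithin S hW)).not_ge ?_
  have ha : AntilipschitzWith (2 * K) fun a : ↥(S ∩ W) => ψ a := by
    refine AntilipschitzWith.of_le_mul_dist fun a b => ?_
    have e1 := hA a a.2.2 b b.2.2
    have e2 : ‖a.1 - b.1‖ ≤ K * ‖(L.prod L') (a.1 - b.1)‖ := by
      simpa only [map_zero, dist_zero_right, ContinuousLinearMap.coe_coe] using hK.le_mul_dist (a.1 - b.1) 0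
    have e3 := norm_sub_norm_le ((L.prod L') (a.1 - b.1)) ((ψ a, χ a) - (ψ b, χ b))
    have e4 : ‖(ψ a, χ a) - (ψ b, χ b)‖ = ‖ψ a - ψ b‖ := by simp [h0 a a.2.1, h0 b b.2.1]
    have e5 : (K : ℝ) * (((2 * K)⁻¹ : NNReal) * ‖a.1 - b.1‖) = ‖a.1 - b.1‖ / 2 := by
      have : (K : ℝ) ≠ 0 := by positivity
      push_cast
      field_simp
    rw [e4, norm_sub_rev ((L.prod L') _)] at e3
    rw [Subtype.dist_eq, dist_eq_norm, dist_eq_norm]
    push_cast
    nlinarith [mul_le_mul_of_nonneg_left (e3.trans e1) K.2]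
  rw [← Subtype.coe_image_univ (S ∩ W), isometry_subtype_coe.dimH_image]
  exact (ha.le_dimH_image _).trans (dimH_mono (Set.subset_univ _))

lemma thin_sep {R : Type} [CommRing R] [IsDomain R] [CharZero R] [Algebra R ℂ]
    (hi : Function.Injective (algebraMap R ℂ)) (a : ℂ) (n : ℕ) : ∀ Q : R[X], Q.natDegree = n →
    Q ≠ 0 → aeval a Q = 0 → ∃ P : R[X], aeval a P = 0 ∧ aeval a (derivative P) ≠ 0 := by
  induction n using Nat.strong_induction_on with
  | _ n ih =>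
    intro Q hn h0 h
    by_cases h1 : aeval a (derivative Q) = 0
    · have h2 : Q.natDegree ≠ 0 := fun e => h0 (by
        rw [eq_C_of_natDegree_eq_zero e, aeval_C, map_eq_zero_iff _ hi] at h
        rw [eq_C_of_natDegree_eq_zero e, h, C_0])
      exact ih _ (hn ▸ natDegree_derivative_lt h2) _ rfl
        (fun e => h2 (derivative_eq_zero.1 e)) h1
    · exact ⟨Q, h, h1⟩

lemma thin_max {F : Subfield ℂ} {s : Set ℂ} (r : ℕ) (h : ¬ Ind F (r + 1) s) :
    ∃ n ≤ r, Ind F n s ∧ ¬ Ind F (n + 1) s := by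
  induction r with
  | zero => exact ⟨0, le_rfl, ind_zero F s, h⟩
  | succ r ih =>
    by_cases h1 : Ind F (r + 1) s
    · exact ⟨_, le_rfl, h1, h⟩
    · exact (ih h1).imp fun n hn => ⟨hn.1.trans r.le_succ, hn.2⟩

variable {F : Subfield ℂ} {ι : Type} {n : ℕ}

/-- The value of `Q` at the coordinates `j` and `i` of `y`. -/
noncomputable def thinEv (j : Fin n → ι) (Q : (MvPolynomial (Fin n) F)[X]) (i : ι) (y : ι → ℂ) : ℂ :=
  Q.eval₂ (MvPolynomial.aeval (y ∘ j) : MvPolynomial (Fin n) F →ₐ[F] ℂ) (y i)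

lemma thin_alg {r : ℕ} {y : ι → ℂ} (h : ¬ Ind F (r + 1) (Set.range y)) :
    ∃ (n : Fin (r + 1)) (j : Fin n → ι) (Q : ι → (MvPolynomial (Fin n) F)[X]),
      ∀ i, thinEv j (Q i) i y = 0 ∧ thinEv j (derivative (Q i)) i y ≠ 0 := by
  obtain ⟨n, hn, ⟨x, hx, hI⟩, h1⟩ := thin_max r h
  choose j hj using hx
  obtain rfl : x = y ∘ j := funext fun k => (hj k).symm
  refine ⟨⟨n, by omega⟩, j, ?_⟩
  suffices H : ∀ i, ∃ Q : (MvPolynomial (Fin n) F)[X],
      thinEv j Q i y = 0 ∧ thinEv j (derivative Q) i y ≠ 0 from Classical.skolem.1 H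
  intro i
  obtain ⟨P, P0, hP⟩ : IsAlgebraic (Algebra.adjoin F (Set.range (y ∘ j))) (y i) := by
    by_contra ht
    refine h1 ⟨_, fun k => ?_, ((hI.option_iff_transcendental _).2 ht).comp _
      (finSuccEquiv n).injective⟩
    rcases e : finSuccEquiv n k with _ | k <;> simp [e]
  obtain ⟨P, h2, h3⟩ := thin_sep Subtype.val_injective (y i) _ P rfl P0 hP
  obtain ⟨Q, rfl⟩ := map_surjective hI.aevalEquiv.toRingHom hI.aevalEquiv.surjective P
  have e : (algebraMap _ ℂ).comp hI.aevalEquiv.toRingHom =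
      (MvPolynomial.aeval (y ∘ j) : MvPolynomial (Fin n) F →ₐ[F] ℂ) :=
    RingHom.ext hI.algebraMap_aevalEquiv
  rw [derivative_map] at h3
  rw [aeval_def, eval₂_map, e] at h2 h3
  exact ⟨Q, h2, h3⟩

variable [Fintype ι]

lemma thin_mv (j : Fin n → ι) (y : ι → ℂ) (a : MvPolynomial (Fin n) F) :
    ∃ L : (ι → ℂ) →L[ℂ] ℂ, HasStrictFDerivAt (fun y : ι → ℂ => MvPolynomial.aeval (y ∘ j) a) L y ∧
      ∀ v, v ∘ j = 0 → L v = 0 := by
  induction a using MvPolynomial.induction_on with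
  | C c => exact ⟨0, by simpa using hasStrictFDerivAt_const _ _, fun _ _ => rfl⟩
  | add p q hp hq =>
    obtain ⟨L, h1, h2⟩ := hp
    obtain ⟨L', h3, h4⟩ := hq
    exact ⟨_, by simpa using h1.fun_add h3, fun v hv => by simp [h2 v hv, h4 v hv]⟩
  | mul_X p k hp =>
    obtain ⟨L, h1, h2⟩ := hp
    refine ⟨_, by simpa using h1.fun_mul (hasStrictFDerivAt_apply (j k) y), fun v hv => ?_⟩
    simp [h2 v hv, show v (j k) = 0 from congrFun hv k]

lemma thin_der (j : Fin n → ι) (i : ι) (y : ι → ℂ) (Q : (MvPolynomial (Fin n) F)[X]) :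
    ∃ L : (ι → ℂ) →L[ℂ] ℂ, HasStrictFDerivAt (thinEv j Q i) L y ∧
      ∀ v, v ∘ j = 0 → L v = thinEv j (derivative Q) i y * v i := by
  unfold thinEv
  induction Q using Polynomial.induction_on' with
  | add p q hp hq =>
    obtain ⟨L, h1, h2⟩ := hp
    obtain ⟨L', h3, h4⟩ := hq
    exact ⟨_, by simpa [eval₂_add] using h1.fun_add h3,
      fun v hv => by simp [h2 v hv, h4 v hv, eval₂_add, add_mul]⟩
  | monomial k a =>
    obtain ⟨L, h1, h2⟩ := thin_mv j y a
    refine ⟨_, by simpa [Function.comp_def] using h1.fun_mul ((hasStrictDerivAt_pow k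
      (y i)).hasStrictFDerivAt.comp y (hasStrictFDerivAt_apply i y)), fun v hv => ?_⟩
    simp [h2 v hv, derivative_monomial, Function.comp_def]
    ring

theorem sThin : SThin := by
  intro m r e ι _ F φ O A hF hO
  have c1 : ∀ n, Countable (MvPolynomial (Fin n) F) := fun n =>
    AddMonoidAlgebra.coeffEquiv.countable_iff.2 inferInstance
  have c2 : ∀ n, Countable (MvPolynomial (Fin n) F)[X] := fun n =>
    ((toFinsuppIso _).toEquiv.trans AddMonoidAlgebra.coeffEquiv).countable_iff.2 inferInstance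
  refine (dimH_mono ?_).trans (((ContinuousLinearMap.fst ℂ _ _ +
    A.comp (ContinuousLinearMap.snd ℂ _ _)).lipschitz.dimH_image_le
    (⋃ (n : Fin (r + 1)) (j : Fin n → ι) (Q : ι → (MvPolynomial (Fin n) F)[X]), {p | p.1 ∈ O ∧
      ∀ i, thinEv j (Q i) i (φ p.1) = 0 ∧ thinEv j (derivative (Q i)) i (φ p.1) ≠ 0})).trans ?_)
  · rintro _ ⟨s, hs, τ, h, rfl⟩
    obtain ⟨n, j, Q, h⟩ := thin_alg h
    exact ⟨(s, τ), Set.mem_iUnion.2 ⟨n, Set.mem_iUnion₂.2 ⟨j, Q, hs, h⟩⟩, rfl⟩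
  simp only [dimH_iUnion, iSup_le_iff]
  intro n j Q
  refine (thin_loc (ψ := fun p => (φ p.1 ∘ j, p.2)) (χ := fun p i => thinEv j (Q i) i (φ p.1))
    (fun p hp => funext fun i => (hp.2 i).1) fun p hp => ?_).trans ?_
  · have h1 := ((hO _ hp.1).1.hasStrictFDerivAt one_ne_zero).comp p hasStrictFDerivAt_fst
    choose L h2 h3 using fun i => thin_der j i (φ p.1) (Q i)
    refine ⟨_, _, (hasStrictFDerivAt_pi.2 fun k =>
      (hasStrictFDerivAt_apply (j k) _).comp p h1).prodMk hasStrictFDerivAt_snd,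
      hasStrictFDerivAt_pi.2 fun i => (h2 i).comp p h1, fun v h4 h5 => Prod.ext ?_ ?_⟩
    · refine (injective_iff_map_eq_zero _).1 (hO _ hp.1).2 _ (funext fun i => ?_)
      exact (mul_eq_zero.1 ((h3 i _ (congrArg Prod.fst h4)).symm.trans
        (congrFun h5 i))).resolve_left (hp.2 i).2
    · exact (congrArg Prod.snd h4 :)
  · rw [Real.dimH_univ_eq_finrank, finrank_real_of_complex, Nat.cast_le]
    have := n.2
    simp
    omega

end Pool.Agent.MP_c69980_ag.H43
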